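import Pool.Agent.H317.GR.StmC

/-!
# Project GR, task C8: the lower central series is generated by left-normed commutators
-/

set_option autoImplicit false

namespace Pool.Agent.H47.GR

open Pool.Agent.H317.GR
open scoped commutatorElement

/-- `LC x j` depends only on `x 0, …, x j` -/
theorem LC_congr {G : Type} [Group G] (x y : ℕ → G) :
    ∀ j : ℕ, (∀ i, i ≤ j → x i = y i) → LC x j = LC y j
  | 0, h => h 0 le_rfl
  | (j + 1), h => by
    change ⁅LC x j, x (j + 1)⁆ = ⁅LC y j, y (j + 1)⁆
    rw [LC_congr x y j fun i hi => h i (by omega), h (j + 1) le_rfl]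

/-- `LC x j` is in the `j`-th term of the lower central series -/
theorem LC_mem {G : Type} [Group G] (x : ℕ → G) :
    ∀ j : ℕ, LC x j ∈ (⊤ : Subgroup G).lowerCentralSeries j
  | 0 => Subgroup.mem_top _
  | (j + 1) => Subgroup.commutator_mem_commutator (LC_mem x j) (Subgroup.mem_top _)

/-- a normal subgroup which contains the left-normed commutators contains the term of the lower
central series -/
theorem le_of_LC {G : Type} [Group G] : ∀ (j : ℕ) (M : Subgroup G) (_ : M.Normal),
    (∀ x : ℕ → G, LC x j ∈ M) → (⊤ : Subgroup G).lowerCentralSeries j ≤ M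
  | 0, M, _, h => fun g _ => h fun _ => g
  | (j + 1), M, hM, h => by
    have h1 : (⊤ : Subgroup G).lowerCentralSeries j ≤
        (Subgroup.center (G ⧸ M)).comap (QuotientGroup.mk' M) := by
      refine le_of_LC j _ (Subgroup.Normal.comap inferInstance _) fun x => ?_
      rw [Subgroup.mem_comap, Subgroup.mem_center_iff]
      intro q
      obtain ⟨b, rfl⟩ := QuotientGroup.mk'_surjective M q
      have h2 : ⁅LC x j, b⁆ ∈ M := by
        have h3 := h fun i => if i ≤ j then x i else b
        have h4 : LC (fun i => if i ≤ j then x i else b) j = LC x j :=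
          LC_congr _ _ j fun i hi => if_pos hi
        change ⁅LC (fun i => if i ≤ j then x i else b) j, (if j + 1 ≤ j then x (j + 1) else b)⁆ ∈ M at h3
        rw [h4, if_neg (by omega)] at h3
        exact h3
      have h5 : ⁅QuotientGroup.mk' M (LC x j), QuotientGroup.mk' M b⁆ = 1 := by
        rw [← map_commutatorElement]
        exact (QuotientGroup.eq_one_iff _).2 h2
      exact (commutatorElement_eq_one_iff_mul_comm.1 h5).symm
    change ⁅(⊤ : Subgroup G).lowerCentralSeries j, (⊤ : Subgroup G)⁆ ≤ M
    rw [Subgroup.commutator_le]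
    intro g hg b _
    have h2 := Subgroup.mem_center_iff.1 (Subgroup.mem_comap.1 (h1 hg)) (QuotientGroup.mk' M b)
    have h3 : ⁅QuotientGroup.mk' M g, QuotientGroup.mk' M b⁆ = 1 :=
      commutatorElement_eq_one_iff_mul_comm.2 h2.symm
    rw [← map_commutatorElement] at h3
    exact (QuotientGroup.eq_one_iff _).1 h3

/-- the central elements of finite order -/
def cfin (G : Type) [Group G] : Subgroup G where
  carrier := {g | g ∈ Subgroup.center G ∧ IsOfFinOrder g}
  mul_mem' := fun {a _} ha hb => ⟨mul_mem ha.1 hb.1,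
    Commute.isOfFinOrder_mul (Subgroup.mem_center_iff.1 hb.1 a) ha.2 hb.2⟩
  one_mem' := ⟨one_mem _, IsOfFinOrder.one⟩
  inv_mem' := fun {_} ha => ⟨inv_mem ha.1, ha.2.inv⟩

theorem cfin_normal (G : Type) [Group G] : (cfin G).Normal :=
  ⟨fun g hg b => by
    have h1 : b * g * b⁻¹ = g := by
      rw [Subgroup.mem_center_iff.1 hg.1 b, mul_inv_cancel_right]
    rw [h1]
    exact hg⟩

theorem gnc : S_GNC := by
  intro N _ m hm hx c hc
  have hcen : (⊤ : Subgroup N).lowerCentralSeries m ≤ Subgroup.center N := by
    intro g hg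
    rw [Subgroup.mem_center_iff]
    intro b
    have h1 : ⁅g, b⁆ ∈ (⊤ : Subgroup N).lowerCentralSeries (m + 1) :=
      Subgroup.commutator_mem_commutator hg (Subgroup.mem_top b)
    rw [hm, Subgroup.mem_bot] at h1
    exact (commutatorElement_eq_one_iff_mul_comm.1 h1).symm
  exact (le_of_LC m (cfin N) (cfin_normal N) (fun x => ⟨hcen (LC_mem x m), hx x⟩) hc).2

end Pool.Agent.H47.GR
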